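import Mathlib

/-! # MP_84ee99_co: six points with prescribed edge lengths

Elementary facts used for the own statement of the counterexample (the same facts as in `Pool.Agent.S09854`, kept apart from the frozen statement). -/

set_option autoImplicit false

namespace Pool.Agent.Helper50.EdgeSym

/-- Euclidean 3-space. -/
abbrev E3 := EuclideanSpace ℝ (Fin 3)

lemma inner3 (u x : E3) : @inner ℝ E3 _ u x = u 0 * x 0 + u 1 * x 1 + u 2 * x 2 := by
  simp [PiLp.inner_apply, Fin.sum_univ_three]; ring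

lemma dist3 (x y : E3) :
    dist x y ^ 2 = (x 0 - y 0)^2 + (x 1 - y 1)^2 + (x 2 - y 2)^2 := by
  rw [EuclideanSpace.dist_eq, Real.sq_sqrt (by positivity)]
  simp [Fin.sum_univ_three, Real.dist_eq, sq_abs]

/-- The point of 3-space with coordinates `x, y, z`. -/
def pt (x y z : ℝ) : E3 := !₂[x, y, z]

@[simp] lemma pt_zero (x y z : ℝ) : pt x y z 0 = x := rfl
@[simp] lemma pt_one (x y z : ℝ) : pt x y z 1 = y := rfl
@[simp] lemma pt_two (x y z : ℝ) : pt x y z 2 = z := rfl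

/-- The six vertices of the counterexample. -/
def P : Fin 6 → E3
  | 0 => pt 30 10 0
  | 1 => pt 30 (-10) 0
  | 2 => pt 15 5 0
  | 3 => pt 9 13 0
  | 4 => pt 0 0 10
  | 5 => pt 37 0 1

/-- A vector orthogonal to three vectors with the given (nondegenerate) Gram matrix vanishes. -/
lemma ortho_zero (p0 p1 p2 r0 r1 r2 n0 n1 n2 x0 x1 x2 : ℝ)
    (hpp : p0 * p0 + p1 * p1 + p2 * p2 = 4000) (hrr : r0 * r0 + r1 * r1 + r2 * r2 = 200)
    (hnn : n0 * n0 + n1 * n1 + n2 * n2 = 400) (hpr : p0 * r0 + p1 * r1 + p2 * r2 = -800)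
    (hpn : p0 * n0 + p1 * n1 + p2 * n2 = 0) (hrn : r0 * n0 + r1 * n1 + r2 * n2 = 0)
    (hxp : x0 * p0 + x1 * p1 + x2 * p2 = 0) (hxr : x0 * r0 + x1 * r1 + x2 * r2 = 0)
    (hxn : x0 * n0 + x1 * n1 + x2 * n2 = 0) : x0 = 0 ∧ x1 = 0 ∧ x2 = 0 := by
  have hDsq : (p0 * (r1 * n2 - r2 * n1) - p1 * (r0 * n2 - r2 * n0) + p2 * (r0 * n1 - r1 * n0)) ^ 2
      = 64000000 := by
    have h : (p0 * (r1 * n2 - r2 * n1) - p1 * (r0 * n2 - r2 * n0) + p2 * (r0 * n1 - r1 * n0)) ^ 2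
        = (p0 * p0 + p1 * p1 + p2 * p2) * ((r0 * r0 + r1 * r1 + r2 * r2) *
            (n0 * n0 + n1 * n1 + n2 * n2) - (r0 * n0 + r1 * n1 + r2 * n2) ^ 2)
          - (p0 * r0 + p1 * r1 + p2 * r2) * ((p0 * r0 + p1 * r1 + p2 * r2) *
            (n0 * n0 + n1 * n1 + n2 * n2) -
            (r0 * n0 + r1 * n1 + r2 * n2) * (p0 * n0 + p1 * n1 + p2 * n2))
          + (p0 * n0 + p1 * n1 + p2 * n2) * ((p0 * r0 + p1 * r1 + p2 * r2) *
            (r0 * n0 + r1 * n1 + r2 * n2) -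
            (r0 * r0 + r1 * r1 + r2 * r2) * (p0 * n0 + p1 * n1 + p2 * n2)) := by ring
    rw [h, hpp, hrr, hnn, hpr, hpn, hrn]; norm_num
  generalize hD : p0 * (r1 * n2 - r2 * n1) - p1 * (r0 * n2 - r2 * n0) + p2 * (r0 * n1 - r1 * n0)
    = D at hDsq
  have hD0 : D ≠ 0 := by
    rintro rfl
    norm_num at hDsq
  have e0 : D * x0 = 0 := by
    rw [← hD]
    linear_combination (r1 * n2 - r2 * n1) * hxp + (p2 * n1 - p1 * n2) * hxr
      + (p1 * r2 - p2 * r1) * hxn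
  have e1 : D * x1 = 0 := by
    rw [← hD]
    linear_combination (r2 * n0 - r0 * n2) * hxp + (p0 * n2 - p2 * n0) * hxr
      + (p2 * r0 - p0 * r2) * hxn
  have e2 : D * x2 = 0 := by
    rw [← hD]
    linear_combination (r0 * n1 - r1 * n0) * hxp + (p1 * n0 - p0 * n1) * hxr
      + (p0 * r1 - p1 * r0) * hxn
  exact ⟨(mul_eq_zero.mp e0).resolve_left hD0, (mul_eq_zero.mp e1).resolve_left hD0,
    (mul_eq_zero.mp e2).resolve_left hD0⟩

/-- The algebraic core: six points with the prescribed edge lengths and with the two extra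
equalities `|ac| = |bd|`, `|wc| = |wd|` forced by symmetry cannot have `ab`, `bc` and `vw` as
edges of their convex hull. -/
lemma core (A B C D V W : E3)
    (hAB : dist A B ^ 2 = 400) (hBC : dist B C ^ 2 = 450) (hAD : dist A D ^ 2 = 450)
    (hCD : dist C D ^ 2 = 100) (hAV : dist A V ^ 2 = 1100) (hBV : dist B V ^ 2 = 1100)
    (hCV : dist C V ^ 2 = 350) (hDV : dist D V ^ 2 = 350) (hAW : dist A W ^ 2 = 150)
    (hBW : dist B W ^ 2 = 150) (hVW : dist V W ^ 2 = 1450)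
    (hAC : dist A C ^ 2 = dist B D ^ 2) (hCW : dist C W ^ 2 = dist D W ^ 2)
    (eAB : ∃ u : E3, @inner ℝ E3 _ u A = @inner ℝ E3 _ u B ∧
      @inner ℝ E3 _ u C < @inner ℝ E3 _ u A ∧ @inner ℝ E3 _ u D < @inner ℝ E3 _ u A ∧
      @inner ℝ E3 _ u V < @inner ℝ E3 _ u A ∧ @inner ℝ E3 _ u W < @inner ℝ E3 _ u A)
    (eBC : ∃ u : E3, @inner ℝ E3 _ u B = @inner ℝ E3 _ u C ∧
      @inner ℝ E3 _ u A < @inner ℝ E3 _ u B ∧ @inner ℝ E3 _ u D < @inner ℝ E3 _ u B)
    (eVW : ∃ u : E3, @inner ℝ E3 _ u V = @inner ℝ E3 _ u W ∧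
      @inner ℝ E3 _ u A < @inner ℝ E3 _ u V ∧ @inner ℝ E3 _ u B < @inner ℝ E3 _ u V ∧
      @inner ℝ E3 _ u C < @inner ℝ E3 _ u V ∧ @inner ℝ E3 _ u D < @inner ℝ E3 _ u V) :
    False := by
  simp only [dist3, inner3] at *
  generalize A 0 = a0 at *
  generalize A 1 = a1 at *
  generalize A 2 = a2 at *
  generalize B 0 = b0 at *
  generalize B 1 = b1 at *
  generalize B 2 = b2 at *
  generalize C 0 = c0 at *
  generalize C 1 = c1 at *
  generalize C 2 = c2 at *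
  generalize D 0 = d0 at *
  generalize D 1 = d1 at *
  generalize D 2 = d2 at *
  generalize V 0 = v0 at *
  generalize V 1 = v1 at *
  generalize V 2 = v2 at *
  generalize W 0 = w0 at *
  generalize W 1 = w1 at *
  generalize W 2 = w2 at *
  -- Gram matrix of `p = 2v - a - b`, `r = 2w - a - b`, `n = a - b`
  have hpp : (2*v0-a0-b0) * (2*v0-a0-b0) + (2*v1-a1-b1) * (2*v1-a1-b1)
      + (2*v2-a2-b2) * (2*v2-a2-b2) = 4000 := by
    linear_combination 2 * hAV + 2 * hBV - hAB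
  have hrr : (2*w0-a0-b0) * (2*w0-a0-b0) + (2*w1-a1-b1) * (2*w1-a1-b1)
      + (2*w2-a2-b2) * (2*w2-a2-b2) = 200 := by
    linear_combination 2 * hAW + 2 * hBW - hAB
  have hnn : (a0-b0) * (a0-b0) + (a1-b1) * (a1-b1) + (a2-b2) * (a2-b2) = 400 := by
    linear_combination hAB
  have hpr : (2*v0-a0-b0) * (2*w0-a0-b0) + (2*v1-a1-b1) * (2*w1-a1-b1)
      + (2*v2-a2-b2) * (2*w2-a2-b2) = -800 := by
    linear_combination hAV + hBV + hAW + hBW - hAB - 2 * hVW
  have hpn : (2*v0-a0-b0) * (a0-b0) + (2*v1-a1-b1) * (a1-b1) + (2*v2-a2-b2) * (a2-b2) = 0 := by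
    linear_combination hBV - hAV
  have hrn : (2*w0-a0-b0) * (a0-b0) + (2*w1-a1-b1) * (a1-b1) + (2*w2-a2-b2) * (a2-b2) = 0 := by
    linear_combination hBW - hAW
  -- `k = c - d` is orthogonal to `p`, `r`
  have hkm : (c0-d0) * (c0+d0-a0-b0) + (c1-d1) * (c1+d1-a1-b1) + (c2-d2) * (c2+d2-a2-b2) = 0 := by
    linear_combination (1/2) * (hAC + hBC - hAD)
  have hkp : (c0-d0) * (2*v0-a0-b0) + (c1-d1) * (2*v1-a1-b1) + (c2-d2) * (2*v2-a2-b2) = 0 := by
    linear_combination hkm - hCV + hDV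
  have hkr : (c0-d0) * (2*w0-a0-b0) + (c1-d1) * (2*w1-a1-b1) + (c2-d2) * (2*w2-a2-b2) = 0 := by
    linear_combination hkm - hCW
  have hmn : (c0+d0-a0-b0) * (a0-b0) + (c1+d1-a1-b1) * (a1-b1) + (c2+d2-a2-b2) * (a2-b2) = 0 := by
    linear_combination (1/2) * (hBC - hAD - hAC)
  -- hence `k` is a multiple of `n`
  obtain ⟨l, hl⟩ : ∃ l : ℝ, (c0-d0) * (a0-b0) + (c1-d1) * (a1-b1) + (c2-d2) * (a2-b2) = 400 * l :=
    ⟨((c0-d0) * (a0-b0) + (c1-d1) * (a1-b1) + (c2-d2) * (a2-b2)) / 400, by ring⟩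
  obtain ⟨k0, k1, k2⟩ := ortho_zero _ _ _ _ _ _ _ _ _
    (c0 - d0 - l * (a0-b0)) (c1 - d1 - l * (a1-b1)) (c2 - d2 - l * (a2-b2))
    hpp hrr hnn hpr hpn hrn (by linear_combination hkp - l * hpn)
    (by linear_combination hkr - l * hrn) (by linear_combination hl - l * hnn)
  have hl2 : (l - 1/2) * (l + 1/2) = 0 := by
    have : 400 * l ^ 2 = 100 := by
      linear_combination hCD - l^2 * hnn - (c0 - d0 + l * (a0-b0)) * k0
        - (c1 - d1 + l * (a1-b1)) * k1 - (c2 - d2 + l * (a2-b2)) * k2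
    linear_combination this / 400
  rcases mul_eq_zero.mp hl2 with hl' | hl'
  · -- crossed trapezoid: `b + 2c = a + 2d`
    obtain rfl : l = 1/2 := by linarith
    obtain ⟨u, hu, h1, h2⟩ := eBC
    have key : (u 0 * b0 + u 1 * b1 + u 2 * b2) + 2 * (u 0 * c0 + u 1 * c1 + u 2 * c2)
        = (u 0 * a0 + u 1 * a1 + u 2 * a2) + 2 * (u 0 * d0 + u 1 * d1 + u 2 * d2) := by
      linear_combination 2 * u 0 * k0 + 2 * u 1 * k1 + 2 * u 2 * k2
    linarith
  · obtain rfl : l = -(1/2) := by linarith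
    -- Gram data of `m = c + d - a - b`
    have hmm : (c0+d0-a0-b0) * (c0+d0-a0-b0) + (c1+d1-a1-b1) * (c1+d1-a1-b1)
        + (c2+d2-a2-b2) * (c2+d2-a2-b2) = 1700 := by
      linear_combination 2 * hBC + 2 * hAD - hAB - hCD - 2 * hl
    have hmp : (c0+d0-a0-b0) * (2*v0-a0-b0) + (c1+d1-a1-b1) * (2*v1-a1-b1)
        + (c2+d2-a2-b2) * (2*v2-a2-b2) = 2200 := by
      linear_combination (1/2) * (hpp + hmm) - hCV - hDV + (1/2) * hCD
    obtain ⟨t, hmr⟩ : ∃ t : ℝ, (c0+d0-a0-b0) * (2*w0-a0-b0) + (c1+d1-a1-b1) * (2*w1-a1-b1)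
        + (c2+d2-a2-b2) * (2*w2-a2-b2) = t := ⟨_, rfl⟩
    obtain ⟨α, hα⟩ : ∃ α : ℝ, α = (200 * 2200 + 800 * t) / 160000 := ⟨_, rfl⟩
    obtain ⟨β, hβ⟩ : ∃ β : ℝ, β = (4000 * t + 800 * 2200) / 160000 := ⟨_, rfl⟩
    obtain ⟨m0, m1, m2⟩ := ortho_zero _ _ _ _ _ _ _ _ _
      (c0+d0-a0-b0 - α * (2*v0-a0-b0) - β * (2*w0-a0-b0))
      (c1+d1-a1-b1 - α * (2*v1-a1-b1) - β * (2*w1-a1-b1))
      (c2+d2-a2-b2 - α * (2*v2-a2-b2) - β * (2*w2-a2-b2))
      hpp hrr hnn hpr hpn hrn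
      (by linear_combination hmp - α * hpp - β * hpr - 4000 * hα + 800 * hβ)
      (by linear_combination hmr - α * hpr - β * hrr + 800 * hα - 200 * hβ)
      (by linear_combination hmn - α * hpn - β * hrn)
    have hab : 4000 * α - 800 * β = 2200 := by rw [hα, hβ]; ring
    have hmm' : α * 2200 + β * t = 1700 := by
      linear_combination hmm - α * hmp - β * hmr - (c0+d0-a0-b0) * m0 - (c1+d1-a1-b1) * m1
        - (c2+d2-a2-b2) * m2
    have ht : t = -800 * α + 200 * β := by rw [hα, hβ]; ring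
    have hα' : α = (11 + 4 * β) / 20 := by linarith
    have hβ2 : (β - 7/2) * (β + 7/2) = 0 := by
      rw [ht, hα'] at hmm'
      linear_combination hmm' / 40
    rcases mul_eq_zero.mp hβ2 with hb | hb
    · -- `4c + 4d + 15a + 15b = 10v + 28w`
      obtain rfl : β = 7/2 := by linarith
      obtain rfl : α = 5/4 := by rw [hα']; norm_num
      obtain ⟨u, hu, h1, h2, h3, h4⟩ := eVW
      have key : 4 * (u 0 * c0 + u 1 * c1 + u 2 * c2) + 4 * (u 0 * d0 + u 1 * d1 + u 2 * d2)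
          + 15 * (u 0 * a0 + u 1 * a1 + u 2 * a2) + 15 * (u 0 * b0 + u 1 * b1 + u 2 * b2)
          = 10 * (u 0 * v0 + u 1 * v1 + u 2 * v2) + 28 * (u 0 * w0 + u 1 * w1 + u 2 * w2) := by
        linear_combination 4 * u 0 * m0 + 4 * u 1 * m1 + 4 * u 2 * m2
      linarith
    · -- `20c + 20d + 6v + 140w = 93a + 93b`
      obtain rfl : β = -(7/2) := by linarith
      obtain rfl : α = -(3/20) := by rw [hα']; norm_num
      obtain ⟨u, hu, h1, h2, h3, h4⟩ := eAB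
      have key : 20 * (u 0 * c0 + u 1 * c1 + u 2 * c2) + 20 * (u 0 * d0 + u 1 * d1 + u 2 * d2)
          + 6 * (u 0 * v0 + u 1 * v1 + u 2 * v2) + 140 * (u 0 * w0 + u 1 * w1 + u 2 * w2)
          = 93 * (u 0 * a0 + u 1 * a1 + u 2 * a2) + 93 * (u 0 * b0 + u 1 * b1 + u 2 * b2) := by
        linear_combination 20 * u 0 * m0 + 20 * u 1 * m1 + 20 * u 2 * m2
      linarith

lemma P_injective : Function.Injective P := by
  intro i j h
  have h0 : P i 0 = P j 0 := by rw [h]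
  have h1 : P i 1 = P j 1 := by rw [h]
  fin_cases i <;> fin_cases j <;> first | rfl | (exfalso; revert h0 h1; norm_num [P])

/-- The combinatorial automorphism `(a b)(c d)`. -/
def s : Equiv.Perm (Fin 6) := Equiv.swap 0 1 * Equiv.swap 2 3

lemma s_s (i : Fin 6) : s (s i) = i := by
  revert i; decide

/-- The graph of the counterexample. -/
def adj (i j : Fin 6) : Bool :=
  (i, j) ∈ ([(0,1),(1,0),(1,2),(2,1),(2,3),(3,2),(0,3),(3,0),(0,4),(4,0),(1,4),(4,1),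
    (2,4),(4,2),(3,4),(4,3),(4,5),(5,4),(0,5),(5,0),(1,5),(5,1)] : List (Fin 6 × Fin 6))

lemma dist_s (i j : Fin 6) (h : adj i j = true) : dist (P (s i)) (P (s j)) = dist (P i) (P j) := by
  have key : dist (P (s i)) (P (s j)) ^ 2 = dist (P i) (P j) ^ 2 := by
    have h0 : s 0 = 1 := by decide
    have h1 : s 1 = 0 := by decide
    have h2 : s 2 = 3 := by decide
    have h3 : s 3 = 2 := by decide
    have h4 : s 4 = 4 := by decide
    have h5 : s 5 = 5 := by decide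
    rw [dist3, dist3]
    fin_cases i <;> fin_cases j <;>
      first
      | exact absurd h (by decide)
      | (simp only [Fin.mk_zero, Fin.mk_one, Fin.reduceFinMk, Fin.isValue,
          h0, h1, h2, h3, h4, h5] <;> norm_num [P])
  exact (pow_left_inj₀ dist_nonneg dist_nonneg two_ne_zero).mp key

end Pool.Agent.Helper50.EdgeSym
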