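import Pool.Agent.Helper50.EdgeSym.Core

/-! # MP_84ee99_co: face lattices of polytopes in Euclidean 3-space

The definitions used in the own statement, and elementary facts on faces. -/

set_option autoImplicit false

namespace Pool.Agent.Helper50.EdgeSym

open Set

/-- `P` is a convex polytope of dimension 3 in Euclidean 3-space: the convex hull of finitely many
points, with nonempty interior. -/
def IsPolytope (P : Set E3) : Prop :=
  (∃ S : Finset E3, P = convexHull ℝ (S : Set E3)) ∧ (interior P).Nonempty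

/-- The face lattice of `P`: the faces are the empty set and the sets of all points of `P` at which some
linear function attains its maximum over `P` (`P` itself is one of them); the order is inclusion. -/
abbrev Faces (P : Set E3) : Type := {F : Set E3 // IsExposed ℝ P F}

/-- The face `F` is an edge: a segment with two different end points. -/
def IsEdge {P : Set E3} (F : Faces P) : Prop :=
  ∃ a b : E3, a ≠ b ∧ (F : Set E3) = segment ℝ a b

/-- The isomorphism of face lattices `φ` maps every edge to an edge of the same length (the length of an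
edge is its diameter). -/
def KeepsLengths {P Q : Set E3} (φ : Faces P ≃o Faces Q) : Prop :=
  ∀ F : Faces P, IsEdge F → Metric.diam (φ F : Set E3) = Metric.diam (F : Set E3)

/-- The automorphism `σ` of the face lattice of `P` is realized by `P`: there is an isometry `g` of
Euclidean 3-space with `g(P) = P` and `g(v) = σ(v)` for every vertex `v` of `P`. -/
def Realized {P : Set E3} (σ : Faces P ≃o Faces P) : Prop :=
  ∃ g : E3 → E3, Isometry g ∧ g '' P = P ∧
    ∀ (v : E3) (hv : IsExposed ℝ P {v}), (σ ⟨{v}, hv⟩ : Set E3) = {g v}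

/-- `P` is the hull of finitely many points -/
def Hull (P : Set E3) : Prop := ∃ S : Finset E3, P = convexHull ℝ (S : Set E3)

variable {P Q : Set E3}

lemma Hull.compact (h : Hull P) : IsCompact P := by
  obtain ⟨S, rfl⟩ := h
  exact S.finite_toSet.isCompact_convexHull ℝ

lemma Hull.convex (h : Hull P) : Convex ℝ P := by
  obtain ⟨S, rfl⟩ := h
  exact convex_convexHull ℝ _

lemma Hull.finite (h : Hull P) : (P.extremePoints ℝ).Finite := by
  obtain ⟨S, rfl⟩ := h
  exact S.finite_toSet.subset extremePoints_convexHull_subset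

/-- a face is the hull of the vertices in it -/
lemma face_eq (h : Hull P) {F : Set E3} (hF : IsExposed ℝ P F) :
    F = convexHull ℝ (F ∩ P.extremePoints ℝ) := by
  have h1 : IsCompact F := hF.isCompact h.compact
  have h2 : Convex ℝ F := hF.convex h.convex
  have h3 := closure_convexHull_extremePoints h1 h2
  rw [hF.isExtreme.extremePoints_eq] at h3
  have h4 : (F ∩ P.extremePoints ℝ).Finite := h.finite.subset inter_subset_right
  rw [(h4.isClosed_convexHull ℝ).closure_eq] at h3
  exact h3.symm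

lemma vertex_exposed (h : Hull P) {v : E3} (hv : v ∈ P.extremePoints ℝ) :
    IsExposed ℝ P {v} := by
  have hfin := h.finite
  have h1 : v ∉ convexHull ℝ (P.extremePoints ℝ \ {v}) := by
    have := ((h.convex).mem_extremePoints_iff_mem_sdiff_convexHull_sdiff).1 hv
    exact fun h2 => this.2 (convexHull_mono (sdiff_subset_sdiff_left extremePoints_subset) h2)
  obtain ⟨l, c, hl, hc⟩ := geometric_hahn_banach_point_closed (convex_convexHull ℝ _)
    ((hfin.subset sdiff_subset).isClosed_convexHull ℝ) h1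
  have hG : IsExposed ℝ P ((-l).toExposed P) := ContinuousLinearMap.toExposed.isExposed
  have hGne : ((-l).toExposed P).Nonempty := by
    obtain ⟨x, hx, hx'⟩ := h.compact.exists_isMaxOn ⟨v, extremePoints_subset hv⟩
      (f := fun x => (-l) x) (-l).continuous.continuousOn
    exact ⟨x, hx, fun y hy => hx' hy⟩
  have hsub : (-l).toExposed P ∩ P.extremePoints ℝ ⊆ {v} := by
    rintro w ⟨hw, hwV⟩
    by_contra hne
    have h5 : c < l w := hc w (subset_convexHull ℝ _ ⟨hwV, hne⟩)
    have h6 : (-l) v ≤ (-l) w := hw.2 v (extremePoints_subset hv)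
    have h7 : -(l v) ≤ -(l w) := h6
    linarith
  have heq := face_eq h hG
  rcases subset_singleton_iff_eq.1 hsub with h8 | h8
  · rw [h8, convexHull_empty] at heq
    exact absurd heq hGne.ne_empty
  · rw [h8, convexHull_singleton] at heq
    rw [← heq]
    exact hG

lemma vertex_iff (h : Hull P) {v : E3} : IsExposed ℝ P {v} ↔ v ∈ P.extremePoints ℝ :=
  ⟨fun hv => isExtreme_singleton.1 hv.isExtreme, vertex_exposed h⟩

lemma vertex_map (hP : Hull P) (hQ : Hull Q) (φ : Faces P ≃o Faces Q) {v : E3}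
    (hv : v ∈ P.extremePoints ℝ) :
    ∃ w ∈ Q.extremePoints ℝ, (φ ⟨{v}, vertex_exposed hP hv⟩ : Set E3) = {w} := by
  set F : Faces P := ⟨{v}, vertex_exposed hP hv⟩ with hFdef
  have hne : (φ F : Set E3).Nonempty := by
    by_contra hc
    rw [not_nonempty_iff_eq_empty] at hc
    have h1 : φ F ≤ φ ⟨∅, isExposed_empty⟩ := by
      show (φ F : Set E3) ⊆ _
      rw [hc]
      exact empty_subset _
    have h2 : F ≤ ⟨∅, isExposed_empty⟩ := φ.le_iff_le.1 h1
    exact h2 (mem_singleton v)
  obtain ⟨w, hw⟩ := ((φ F).2.isCompact hQ.compact).extremePoints_nonempty hne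
  rw [(φ F).2.isExtreme.extremePoints_eq] at hw
  refine ⟨w, hw.2, ?_⟩
  set W : Faces Q := ⟨{w}, vertex_exposed hQ hw.2⟩ with hWdef
  have h3 : W ≤ φ F := by
    show ({w} : Set E3) ⊆ _
    rw [singleton_subset_iff]
    exact hw.1
  have h4 : φ.symm W ≤ F := by
    have := φ.symm.monotone h3
    rwa [φ.symm_apply_apply] at this
  have h5 : (φ.symm W : Set E3) = {v} := by
    rcases subset_singleton_iff_eq.1 (show (φ.symm W : Set E3) ⊆ {v} from h4) with h | h
    · exfalso
      have h6 : φ.symm W ≤ φ.symm ⟨∅, isExposed_empty⟩ := by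
        show (φ.symm W : Set E3) ⊆ _
        rw [h]
        exact empty_subset _
      have h7 : W ≤ ⟨∅, isExposed_empty⟩ := φ.symm.le_iff_le.1 h6
      exact h7 (mem_singleton w)
    · exact h
  have h6 : φ.symm W = F := Subtype.ext h5
  have h7 : W = φ F := by rw [← h6, φ.apply_symm_apply]
  rw [← h7]

/-- `r` lists the vertices of `R` without repetition -/
def Enum (R : Set E3) (r : Fin 6 → E3) : Prop :=
  Function.Injective r ∧ range r = R.extremePoints ℝ

lemma Enum.mem {R : Set E3} {r : Fin 6 → E3} (h : Enum R r) (i : Fin 6) :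
    r i ∈ R.extremePoints ℝ := by
  rw [← h.2]
  exact mem_range_self i

/-- inclusion of faces is tested on vertices -/
lemma le_iff {R : Set E3} {r : Fin 6 → E3} (hR : Hull R) (h : Enum R r) {F G : Faces R} :
    F ≤ G ↔ ∀ i, r i ∈ F.1 → r i ∈ G.1 := by
  constructor
  · intro hFG i hi
    exact hFG hi
  · intro hFG
    show F.1 ⊆ G.1
    rw [face_eq hR F.2]
    refine convexHull_min ?_ (G.2.convex hR.convex)
    rintro v ⟨hvF, hv⟩
    rw [← h.2] at hv
    obtain ⟨i, rfl⟩ := hv
    exact hFG i hvF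

lemma face_ext {R : Set E3} {r : Fin 6 → E3} (hR : Hull R) (h : Enum R r) {F G : Faces R}
    (hFG : ∀ i, r i ∈ F.1 ↔ r i ∈ G.1) : F = G :=
  le_antisymm ((le_iff hR h).2 fun i hi => (hFG i).1 hi) ((le_iff hR h).2 fun i hi => (hFG i).2 hi)

/-- a face with exactly two vertices -/
lemma pair_face {R : Set E3} {r : Fin 6 → E3} (hR : Hull R) (h : Enum R r) {G : Faces R}
    {i j : Fin 6} (hG : ∀ k, r k ∈ G.1 ↔ k = i ∨ k = j) :
    G.1 = segment ℝ (r i) (r j) ∧ ∃ u : E3, @inner ℝ E3 _ u (r i) = @inner ℝ E3 _ u (r j) ∧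
      ∀ k, k ≠ i → k ≠ j → @inner ℝ E3 _ u (r k) < @inner ℝ E3 _ u (r i) := by
  have hi : r i ∈ G.1 := (hG i).2 (Or.inl rfl)
  have hj : r j ∈ G.1 := (hG j).2 (Or.inr rfl)
  constructor
  · rw [face_eq hR G.2, ← convexHull_pair]
    congr 1
    ext v
    constructor
    · rintro ⟨hvG, hv⟩
      rw [← h.2] at hv
      obtain ⟨k, rfl⟩ := hv
      rcases (hG k).1 hvG with rfl | rfl
      · simp
      · simp
    · intro hv
      rcases hv with rfl | hv
      · exact ⟨hi, h.mem i⟩
      · rw [mem_singleton_iff] at hv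
        subst hv
        exact ⟨hj, h.mem j⟩
  · obtain ⟨l, hl⟩ := G.2 ⟨_, hi⟩
    refine ⟨(InnerProductSpace.toDual ℝ E3).symm l, ?_, fun k hki hkj => ?_⟩
    · rw [InnerProductSpace.toDual_symm_apply, InnerProductSpace.toDual_symm_apply]
      rw [hl] at hi hj
      exact le_antisymm (hj.2 _ hi.1) (hi.2 _ hj.1)
    · rw [InnerProductSpace.toDual_symm_apply, InnerProductSpace.toDual_symm_apply]
      have hk : r k ∉ G.1 := fun hk => by
        rcases (hG k).1 hk with h1 | h1
        · exact hki h1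
        · exact hkj h1
      rw [hl] at hi hk
      have hkR : r k ∈ R := extremePoints_subset (h.mem k)
      by_contra hc
      push Not at hc
      exact hk ⟨hkR, fun y hy => (hi.2 y hy).trans hc⟩

lemma exposed_seg {a b : E3} (hab : a ≠ b) : IsExposed ℝ (segment ℝ a b) {a} := by
  intro _
  refine ⟨innerSL ℝ (a - b), ?_⟩
  have hpos : 0 < @inner ℝ E3 _ (a - b) (a - b) := by
    rw [real_inner_self_eq_norm_sq]
    have : 0 < ‖a - b‖ := norm_pos_iff.2 (sub_ne_zero.2 hab)
    positivity
  have hval : ∀ t : ℝ, @inner ℝ E3 _ (a - b) (a + t • (b - a)) =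
      @inner ℝ E3 _ (a - b) a - t * @inner ℝ E3 _ (a - b) (a - b) := by
    intro t
    have : a + t • (b - a) = a - t • (a - b) := by
      rw [← neg_sub a b, smul_neg, ← sub_eq_add_neg]
    rw [this, inner_sub_right, inner_smul_right]
  ext x
  constructor
  · intro hx
    rw [mem_singleton_iff] at hx
    subst hx
    refine ⟨left_mem_segment ℝ _ _, fun y hy => ?_⟩
    rw [segment_eq_image'] at hy
    obtain ⟨t, ⟨ht0, -⟩, rfl⟩ := hy
    rw [innerSL_apply_apply, innerSL_apply_apply, hval]
    have := mul_nonneg ht0 hpos.le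
    linarith
  · rintro ⟨hx, hmax⟩
    have h1 := hmax a (left_mem_segment ℝ _ _)
    rw [segment_eq_image'] at hx
    obtain ⟨t, ⟨ht0, -⟩, rfl⟩ := hx
    rw [innerSL_apply_apply, innerSL_apply_apply, hval] at h1
    have h2 : t * @inner ℝ E3 _ (a - b) (a - b) ≤ 0 := by linarith
    have h3 : t ≤ 0 := by
      by_contra hc
      push Not at hc
      have := mul_pos hc hpos
      linarith
    have h4 : t = 0 := le_antisymm h3 ht0
    show a + t • (b - a) = a
    rw [h4, zero_smul, add_zero]

/-- an edge has exactly two vertices -/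
lemma edge_face {R : Set E3} {r : Fin 6 → E3} (h : Enum R r) {G : Faces R}
    (hG : IsEdge G) : ∃ i j, i ≠ j ∧ ∀ k, r k ∈ G.1 ↔ k = i ∨ k = j := by
  obtain ⟨a, b, hab, hseg⟩ := hG
  have ha : a ∈ R.extremePoints ℝ := by
    have h1 : a ∈ (segment ℝ a b).extremePoints ℝ :=
      isExtreme_singleton.1 (exposed_seg hab).isExtreme
    rw [← hseg, G.2.isExtreme.extremePoints_eq] at h1
    exact h1.2
  have hb : b ∈ R.extremePoints ℝ := by
    have h1 : b ∈ (segment ℝ b a).extremePoints ℝ :=
      isExtreme_singleton.1 (exposed_seg hab.symm).isExtreme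
    rw [segment_symm, ← hseg, G.2.isExtreme.extremePoints_eq] at h1
    exact h1.2
  have ha' := ha
  have hb' := hb
  rw [← h.2] at ha' hb'
  obtain ⟨i, rfl⟩ := ha'
  obtain ⟨j, rfl⟩ := hb'
  refine ⟨i, j, fun hij => hab (by rw [hij]), fun k => ⟨fun hk => ?_, ?_⟩⟩
  · rw [hseg] at hk
    have h2 := (mem_extremePoints_iff_forall_segment.1 (h.mem k)).2 _ (extremePoints_subset ha)
      _ (extremePoints_subset hb) hk
    rcases h2 with h3 | h3
    · exact Or.inl (h.1 h3).symm
    · exact Or.inr (h.1 h3).symm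
  · rintro (rfl | rfl)
    · rw [hseg]
      exact left_mem_segment ℝ _ _
    · rw [hseg]
      exact right_mem_segment ℝ _ _

lemma diam_seg (a b : E3) : Metric.diam (segment ℝ a b) = dist a b := by
  rw [← convexHull_pair, convexHull_diam, Metric.diam_pair]

/-- transport of the list of vertices -/
lemma transport (hP : Hull P) (hQ : Hull Q) (φ : Faces P ≃o Faces Q) {p : Fin 6 → E3}
    (h : Enum P p) : ∃ t : Fin 6 → E3, Enum Q t ∧
      ∀ (F : Faces P) (i : Fin 6), t i ∈ (φ F).1 ↔ p i ∈ F.1 := by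
  have h1 : ∀ i, ∃ w ∈ Q.extremePoints ℝ,
      (φ ⟨{p i}, vertex_exposed hP (h.mem i)⟩ : Set E3) = {w} :=
    fun i => vertex_map hP hQ φ (h.mem i)
  choose t ht ht' using h1
  have hF : ∀ (F : Faces P) (i : Fin 6), t i ∈ (φ F).1 ↔ p i ∈ F.1 := by
    intro F i
    have h2 : t i ∈ (φ F).1 ↔ φ ⟨{p i}, vertex_exposed hP (h.mem i)⟩ ≤ φ F := by
      rw [← singleton_subset_iff, ← ht' i]
      rfl
    rw [h2, φ.le_iff_le, ← singleton_subset_iff]
    rfl
  refine ⟨t, ⟨fun i j hij => ?_, ?_⟩, hF⟩
  · have h3 : φ ⟨{p i}, vertex_exposed hP (h.mem i)⟩ = φ ⟨{p j}, vertex_exposed hP (h.mem j)⟩ := by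
      apply Subtype.ext
      rw [ht' i, ht' j, hij]
    have h4 := congrArg Subtype.val (φ.injective h3)
    exact h.1 (singleton_injective h4)
  · ext w
    constructor
    · rintro ⟨i, rfl⟩
      exact ht i
    · intro hw
      obtain ⟨v, hv, hv'⟩ := vertex_map hQ hP φ.symm hw
      rw [← h.2] at hv
      obtain ⟨i, rfl⟩ := hv
      refine ⟨i, ?_⟩
      have h5 : φ.symm ⟨{w}, vertex_exposed hQ hw⟩ = ⟨{p i}, vertex_exposed hP (h.mem i)⟩ :=
        Subtype.ext hv'
      have h6 : (⟨{w}, vertex_exposed hQ hw⟩ : Faces Q) =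
          φ ⟨{p i}, vertex_exposed hP (h.mem i)⟩ := by
        rw [← h5, φ.apply_symm_apply]
      have h7 := congrArg Subtype.val h6
      rw [ht' i] at h7
      exact (singleton_injective h7).symm

/-- an involution of the vertices which preserves the vertex sets of faces gives an automorphism of the
face lattice -/
lemma auto {R : Set E3} {r : Fin 6 → E3} (hR : Hull R) (h : Enum R r) (s : Fin 6 → Fin 6)
    (hs : ∀ i, s (s i) = i) (hF : ∀ F : Faces R, ∃ G : Faces R, ∀ i, r i ∈ G.1 ↔ r (s i) ∈ F.1) :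
    ∃ σ : Faces R ≃o Faces R, ∀ (F : Faces R) (i : Fin 6), r i ∈ (σ F).1 ↔ r (s i) ∈ F.1 := by
  choose g hg using hF
  have hgg : ∀ F, g (g F) = F := fun F => face_ext hR h fun i => by rw [hg, hg, hs]
  refine ⟨⟨⟨g, g, hgg, hgg⟩, fun {F G} => ?_⟩, hg⟩
  show g F ≤ g G ↔ F ≤ G
  rw [le_iff hR h, le_iff hR h]
  constructor
  · intro H i hi
    have := H (s i)
    rw [hg, hg, hs] at this
    exact this hi
  · intro H i
    rw [hg, hg]
    exact H (s i)

end Pool.Agent.Helper50.EdgeSym
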