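import Pool.Agent.Helper50.EdgeSym.Face

/-! # MP_84ee99_co: the face lattice of the counterexample -/

set_option autoImplicit false

namespace Pool.Agent.Helper50.EdgeSym

open Set

/-- the polytope: the hull of the six points -/
noncomputable def K : Set E3 := convexHull ℝ (range P)

lemma K_hull : Hull K := by
  refine ⟨Finset.univ.map ⟨P, P_injective⟩, ?_⟩
  rw [K]
  congr 1
  ext x
  simp

lemma K_convex : Convex ℝ K := convex_convexHull ℝ _

lemma P_mem (i : Fin 6) : P i ∈ K := subset_convexHull ℝ _ (mem_range_self i)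

lemma K_interior : (interior K).Nonempty := by
  rw [K_convex.interior_nonempty_iff_affineSpan_eq_top, K, affineSpan_convexHull]
  have hP : ∀ i, P i ∈ affineSpan ℝ (range P) := fun i =>
    subset_affineSpan ℝ _ (mem_range_self i)
  have hdir : ∀ i j, P i - P j ∈ (affineSpan ℝ (range P)).direction := fun i j =>
    AffineSubspace.vsub_mem_direction (hP i) (hP j)
  have htop : (affineSpan ℝ (range P)).direction = ⊤ := by
    rw [eq_top_iff]
    intro x _
    have hx : x = (x 2 / 10) • (P 4 - P 0) + ((x 0 + 3 * x 2) / 15) • (P 0 - P 2)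
        + ((x 1 + x 2) / 20 - (x 0 + 3 * x 2) / 60) • (P 0 - P 1) := by
      ext i
      fin_cases i <;> simp [P] <;> ring
    rw [hx]
    exact Submodule.add_mem _ (Submodule.add_mem _ (Submodule.smul_mem _ _ (hdir 4 0))
      (Submodule.smul_mem _ _ (hdir 0 2))) (Submodule.smul_mem _ _ (hdir 0 1))
  exact (AffineSubspace.direction_eq_top_iff_of_nonempty ⟨P 0, hP 0⟩).mp htop

lemma K_polytope : IsPolytope K := ⟨K_hull, K_interior⟩

/-- the conditions on the vertex set of a face given by the five minimal affine dependencies -/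
def Good (B : Fin 6 → Prop) : Prop :=
  (B 1 ∧ B 3 ↔ B 0 ∧ B 2) ∧ (B 2 ∧ B 5 ↔ B 0 ∧ B 1 ∧ B 4) ∧
    (B 3 ∧ B 5 ↔ B 0 ∧ B 1 ∧ B 4) ∧ (B 3 ∧ B 5 ↔ B 0 ∧ B 2 ∧ B 4) ∧
    (B 2 ∧ B 5 ↔ B 1 ∧ B 3 ∧ B 4)

lemma good_val (f : Fin 6 → ℝ) (M : ℝ) (hM : ∀ i, f i ≤ M)
    (e0 : 5 * f 1 + 10 * f 3 = f 0 + 14 * f 2)
    (e1 : 40 * f 2 + 60 * f 5 = 57 * f 0 + 37 * f 1 + 6 * f 4)
    (_e2 : 200 * f 3 + 420 * f 5 = 419 * f 0 + 159 * f 1 + 42 * f 4)
    (_e3 : 185 * f 3 + 150 * f 5 = 161 * f 0 + 159 * f 2 + 15 * f 4)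
    (_e4 : 419 * f 2 + 30 * f 5 = 161 * f 1 + 285 * f 3 + 3 * f 4) :
    Good (fun i => f i = M) := by
  have h0 := hM 0
  have h1 := hM 1
  have h2 := hM 2
  have h3 := hM 3
  have h4 := hM 4
  have h5 := hM 5
  refine ⟨⟨?_, ?_⟩, ⟨?_, ?_⟩, ⟨?_, ?_⟩, ⟨?_, ?_⟩, ⟨?_, ?_⟩⟩
  · rintro ⟨a, b⟩
    exact ⟨by linarith, by linarith⟩
  · rintro ⟨a, b⟩
    exact ⟨by linarith, by linarith⟩
  · rintro ⟨a, b⟩
    exact ⟨by linarith, by linarith, by linarith⟩
  · rintro ⟨a, b, c⟩
    exact ⟨by linarith, by linarith⟩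
  · rintro ⟨a, b⟩
    exact ⟨by linarith, by linarith, by linarith⟩
  · rintro ⟨a, b, c⟩
    exact ⟨by linarith, by linarith⟩
  · rintro ⟨a, b⟩
    exact ⟨by linarith, by linarith, by linarith⟩
  · rintro ⟨a, b, c⟩
    exact ⟨by linarith, by linarith⟩
  · rintro ⟨a, b⟩
    exact ⟨by linarith, by linarith, by linarith⟩
  · rintro ⟨a, b, c⟩
    exact ⟨by linarith, by linarith⟩

/-- the vertex set of a face is good -/
lemma good_face (F : Faces K) : Good (fun i => P i ∈ F.1) := by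
  by_cases hne : F.1.Nonempty
  · obtain ⟨x, hx⟩ := hne
    obtain ⟨l, hl⟩ := F.2 ⟨x, hx⟩
    obtain ⟨u, hu⟩ : ∃ u : E3, ∀ y, l y = @inner ℝ E3 _ u y :=
      ⟨(InnerProductSpace.toDual ℝ E3).symm l, fun y =>
        (InnerProductSpace.toDual_symm_apply).symm⟩
    have hxK : x ∈ K := by
      rw [hl] at hx
      exact hx.1
    have hmax : ∀ y ∈ K, l y ≤ l x := by
      rw [hl] at hx
      exact hx.2
    have hiff : ∀ i, P i ∈ F.1 ↔ l (P i) = l x := by
      intro i
      rw [hl]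
      constructor
      · rintro ⟨-, h⟩
        exact le_antisymm (hmax _ (P_mem i)) (h x hxK)
      · intro h
        exact ⟨P_mem i, fun y hy => (hmax y hy).trans h.ge⟩
    have hfun : (fun i => P i ∈ F.1) = fun i => l (P i) = l x := funext fun i => propext (hiff i)
    rw [hfun]
    refine good_val (fun i => l (P i)) (l x) (fun i => hmax _ (P_mem i)) ?_ ?_ ?_ ?_ ?_
    all_goals
      simp only [hu, inner3]
      norm_num [P]
      ring
  · rw [not_nonempty_iff_eq_empty] at hne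
    rw [hne]
    simp [Good]

/-- integer coordinates -/
def PZ : Fin 6 → ℤ × ℤ × ℤ
  | 0 => (30, 10, 0)
  | 1 => (30, -10, 0)
  | 2 => (15, 5, 0)
  | 3 => (9, 13, 0)
  | 4 => (0, 0, 10)
  | 5 => (37, 0, 1)

/-- value of a linear function -/
def val (c : ℤ × ℤ × ℤ) (j : Fin 6) : ℤ :=
  c.1 * (PZ j).1 + c.2.1 * (PZ j).2.1 + c.2.2 * (PZ j).2.2

lemma inner_val (c : ℤ × ℤ × ℤ) (j : Fin 6) :
    @inner ℝ E3 _ (pt c.1 c.2.1 c.2.2) (P j) = (val c j : ℝ) := by
  rw [inner3, val]
  push_cast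
  fin_cases j <;> simp [P, PZ]

/-- the linear functions whose maxima give the nonempty faces -/
def certs : List (ℤ × ℤ × ℤ) :=
  [(1, 5, 0), (0, -1, 0), (-5, -4, -11), (-1, 3, 0), (0, 0, 1), (1, 0, 0),
   (1, 0, -8), (1, 7, 0), (1, 2, 5), (1, 1, 3), (-1, -1, -3), (0, -1, 1), (1, -1, 3), (-4, -3, -8),
   (-9, -7, -17), (-4, 2, -1), (9, 0, 37),
   (1, 0, -7), (1, 7, 10), (9, 10, 37), (-1, -1, -2), (9, -10, 37), (-8, -6, -15), (0, 0, -1),
   (0, 0, 0)]

/-- `A` is the set of the indices at which `c` is maximal -/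
def ok (c : ℤ × ℤ × ℤ) (A : Finset (Fin 6)) : Bool :=
  decide (∀ i ∈ A, ∀ j, val c j ≤ val c i ∧ (val c j = val c i → j ∈ A))

/-- `Good` for finsets -/
def goodB (A : Finset (Fin 6)) : Bool :=
  decide ((1 ∈ A ∧ 3 ∈ A ↔ 0 ∈ A ∧ 2 ∈ A) ∧ (2 ∈ A ∧ 5 ∈ A ↔ 0 ∈ A ∧ 1 ∈ A ∧ 4 ∈ A) ∧
    (3 ∈ A ∧ 5 ∈ A ↔ 0 ∈ A ∧ 1 ∈ A ∧ 4 ∈ A) ∧ (3 ∈ A ∧ 5 ∈ A ↔ 0 ∈ A ∧ 2 ∈ A ∧ 4 ∈ A) ∧
    (2 ∈ A ∧ 5 ∈ A ↔ 1 ∈ A ∧ 3 ∈ A ∧ 4 ∈ A))

lemma all_good : ∀ A : Finset (Fin 6), goodB A = true → A = ∅ ∨ ∃ c ∈ certs, ok c A = true := by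
  decide +kernel

/-- every good set is the vertex set of a face -/
lemma exists_face (B : Fin 6 → Prop) (hB : Good B) : ∃ F : Faces K, ∀ i, P i ∈ F.1 ↔ B i := by
  classical
  have hA : goodB (Finset.univ.filter B) = true := by
    simp only [goodB, decide_eq_true_eq, Finset.mem_filter, Finset.mem_univ, true_and]
    exact hB
  have hmem : ∀ i, i ∈ Finset.univ.filter B ↔ B i := by
    intro i
    simp
  generalize Finset.univ.filter B = A at hA hmem
  rcases all_good A hA with h | ⟨c, -, hc⟩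
  · refine ⟨⟨∅, isExposed_empty⟩, fun i => ?_⟩
    rw [← hmem, h]
    simp
  · simp only [ok, decide_eq_true_eq] at hc
    rcases A.eq_empty_or_nonempty with h | ⟨i0, hi0⟩
    · refine ⟨⟨∅, isExposed_empty⟩, fun i => ?_⟩
      rw [← hmem, h]
      simp
    · refine ⟨⟨(innerSL ℝ (pt c.1 c.2.1 c.2.2)).toExposed K,
        ContinuousLinearMap.toExposed.isExposed⟩, fun i => ?_⟩
      have hle : ∀ y ∈ K, @inner ℝ E3 _ (pt c.1 c.2.1 c.2.2) y ≤ (val c i0 : ℝ) := by
        intro y hy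
        have hsub : K ⊆ {z : E3 | @inner ℝ E3 _ (pt c.1 c.2.1 c.2.2) z ≤ (val c i0 : ℝ)} := by
          refine convexHull_min ?_ (convex_halfSpace_le
            ⟨fun a b => inner_add_right _ a b, fun c a => by simp [inner_smul_right]⟩ _)
          rintro z ⟨j, rfl⟩
          show @inner ℝ E3 _ (pt c.1 c.2.1 c.2.2) (P j) ≤ (val c i0 : ℝ)
          rw [inner_val]
          exact_mod_cast (hc i0 hi0 j).1
        exact hsub hy
      rw [← hmem]
      constructor
      · rintro ⟨-, hi⟩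
        have h1 := hi _ (P_mem i0)
        rw [innerSL_apply_apply, innerSL_apply_apply, inner_val, inner_val] at h1
        have h2 : val c i0 ≤ val c i := by exact_mod_cast h1
        exact (hc i0 hi0 i).2 (le_antisymm (hc i0 hi0 i).1 h2)
      · intro hi
        refine ⟨P_mem i, fun y hy => ?_⟩
        rw [innerSL_apply_apply, innerSL_apply_apply, inner_val]
        refine (hle y hy).trans ?_
        exact_mod_cast (hc i hi i0).1

lemma good_single (i : Fin 6) : Good (fun k => k = i) := by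
  unfold Good
  revert i
  decide

lemma K_enum : Enum K P := by
  refine ⟨P_injective, ?_⟩
  ext v
  constructor
  · rintro ⟨i, rfl⟩
    obtain ⟨F, hF⟩ := exists_face _ (good_single i)
    have hne : (F.1 ∩ K.extremePoints ℝ).Nonempty := by
      by_contra hc
      rw [not_nonempty_iff_eq_empty] at hc
      have h1 := face_eq K_hull F.2
      rw [hc, convexHull_empty] at h1
      have h2 : P i ∈ F.1 := (hF i).2 rfl
      rw [h1] at h2
      exact h2
    obtain ⟨w, hwF, hw⟩ := hne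
    obtain ⟨j, rfl⟩ : w ∈ range P := extremePoints_convexHull_subset hw
    rw [← (hF j).1 hwF]
    exact hw
  · intro hv
    exact extremePoints_convexHull_subset hv

lemma good_s (B : Fin 6 → Prop) (hB : Good B) : Good (fun i => B (s i)) := by
  have h0 : s 0 = 1 := by decide
  have h1 : s 1 = 0 := by decide
  have h2 : s 2 = 3 := by decide
  have h3 : s 3 = 2 := by decide
  have h4 : s 4 = 4 := by decide
  have h5 : s 5 = 5 := by decide
  obtain ⟨a, b, c, d, e⟩ := hB
  unfold Good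
  simp only [h0, h1, h2, h3, h4, h5]
  exact ⟨a.symm, c.trans and_left_comm, b.trans and_left_comm, e, d⟩

/-- the automorphism of the face lattice which exchanges `a` and `b`, and `c` and `d` -/
lemma exists_auto : ∃ σ : Faces K ≃o Faces K,
    ∀ (F : Faces K) (i : Fin 6), P i ∈ (σ F).1 ↔ P (s i) ∈ F.1 :=
  auto K_hull K_enum s s_s fun F => exists_face _ (good_s _ (good_face F))

lemma adj_of_good (i j : Fin 6) (hij : i ≠ j) (h : Good (fun k => k = i ∨ k = j)) :
    adj i j = true := by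
  unfold Good at h
  revert i j
  decide

lemma good_of_adj (i j : Fin 6) (h : adj i j = true) : Good (fun k => k = i ∨ k = j) := by
  unfold Good
  revert i j
  decide

/-- the transported symmetry keeps lengths and is not realized -/
theorem main (σ : Faces K ≃o Faces K)
    (hσ : ∀ (F : Faces K) (i : Fin 6), P i ∈ (σ F).1 ↔ P (s i) ∈ F.1)
    {Q : Set E3} (hQ : Hull Q) (φ : Faces K ≃o Faces Q) (hφ : KeepsLengths φ) :
    KeepsLengths (φ.symm.trans (σ.trans φ)) ∧ ¬ Realized (φ.symm.trans (σ.trans φ)) := by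
  obtain ⟨t, ht, htF⟩ := transport K_hull hQ φ K_enum
  have hτ : ∀ (G : Faces Q) (i : Fin 6),
      t i ∈ ((φ.symm.trans (σ.trans φ)) G).1 ↔ t (s i) ∈ G.1 := by
    intro G i
    have h1 : (φ.symm.trans (σ.trans φ)) G = φ (σ (φ.symm G)) := rfl
    rw [h1, htF, hσ, ← htF (φ.symm G) (s i), φ.apply_symm_apply]
  -- lengths of edges given by pairs
  have hlen : ∀ (F : Faces K) (i j : Fin 6), i ≠ j → (∀ k, P k ∈ F.1 ↔ k = i ∨ k = j) →
      Metric.diam (F : Set E3) = dist (P i) (P j) ∧ Metric.diam (φ F : Set E3) = dist (P i) (P j) := by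
    intro F i j hij hF
    have h1 := (pair_face K_hull K_enum hF).1
    have h2 : Metric.diam (F : Set E3) = dist (P i) (P j) := by rw [h1, diam_seg]
    refine ⟨h2, ?_⟩
    rw [← h2]
    exact hφ F ⟨P i, P j, fun h => hij (P_injective h), h1⟩
  have hD : ∀ i j, adj i j = true → dist (t i) (t j) = dist (P i) (P j) ∧
      ∃ u : E3, @inner ℝ E3 _ u (t i) = @inner ℝ E3 _ u (t j) ∧
      ∀ k, k ≠ i → k ≠ j → @inner ℝ E3 _ u (t k) < @inner ℝ E3 _ u (t i) := by
    intro i j hij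
    have hne : i ≠ j := by
      rintro rfl
      revert hij
      revert i
      decide
    obtain ⟨F, hF⟩ := exists_face _ (good_of_adj i j hij)
    have hG : ∀ k, t k ∈ (φ F).1 ↔ k = i ∨ k = j := fun k => by rw [htF, hF]
    have h1 := pair_face hQ ht hG
    refine ⟨?_, h1.2⟩
    rw [← (hlen F i j hne hF).2, h1.1, diam_seg]
  constructor
  · intro G hG
    obtain ⟨i, j, hij, hG'⟩ := edge_face ht hG
    have hF : ∀ k, P k ∈ (φ.symm G).1 ↔ k = i ∨ k = j := by
      intro k
      rw [← htF, φ.apply_symm_apply, hG']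
    have hadj : adj i j = true := by
      refine adj_of_good i j hij ?_
      have h2 := good_face (φ.symm G)
      have h3 : (fun k => P k ∈ (φ.symm G).1) = fun k => k = i ∨ k = j :=
        funext fun k => propext (hF k)
      rwa [h3] at h2
    have hF' : ∀ k, P k ∈ (σ (φ.symm G)).1 ↔ k = s i ∨ k = s j := by
      intro k
      rw [hσ, hF]
      constructor
      · rintro (h | h)
        · exact Or.inl (by rw [← h, s_s])
        · exact Or.inr (by rw [← h, s_s])
      · rintro (h | h)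
        · exact Or.inl (by rw [h, s_s])
        · exact Or.inr (by rw [h, s_s])
    have h4 := (hlen _ i j hij hF).2
    rw [φ.apply_symm_apply] at h4
    have h5 := (hlen _ (s i) (s j) (fun h => hij (s.injective h)) hF').2
    show Metric.diam (φ (σ (φ.symm G)) : Set E3) = _
    rw [h4, h5]
    exact dist_s i j hadj
  · rintro ⟨g, hiso, -, hg⟩
    have hg' : ∀ i, g (t i) = t (s i) := by
      intro i
      have h1 := hg (t i) (vertex_exposed hQ (ht.mem i))
      have h2 : t (s i) ∈ ((φ.symm.trans (σ.trans φ))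
          ⟨{t i}, vertex_exposed hQ (ht.mem i)⟩).1 := by
        rw [hτ, s_s]
        exact mem_singleton _
      rw [h1] at h2
      exact (mem_singleton_iff.1 h2).symm
    have hgd : ∀ i j, dist (t (s i)) (t (s j)) = dist (t i) (t j) := by
      intro i j
      rw [← hg' i, ← hg' j]
      exact hiso.dist_eq _ _
    refine core (t 0) (t 1) (t 2) (t 3) (t 4) (t 5)
      ?_ ?_ ?_ ?_ ?_ ?_ ?_ ?_ ?_ ?_ ?_ ?_ ?_ ?_ ?_ ?_
    · rw [(hD 0 1 (by decide)).1, dist3]; norm_num [P]
    · rw [(hD 1 2 (by decide)).1, dist3]; norm_num [P]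
    · rw [(hD 0 3 (by decide)).1, dist3]; norm_num [P]
    · rw [(hD 2 3 (by decide)).1, dist3]; norm_num [P]
    · rw [(hD 0 4 (by decide)).1, dist3]; norm_num [P]
    · rw [(hD 1 4 (by decide)).1, dist3]; norm_num [P]
    · rw [(hD 2 4 (by decide)).1, dist3]; norm_num [P]
    · rw [(hD 3 4 (by decide)).1, dist3]; norm_num [P]
    · rw [(hD 0 5 (by decide)).1, dist3]; norm_num [P]
    · rw [(hD 1 5 (by decide)).1, dist3]; norm_num [P]
    · rw [(hD 4 5 (by decide)).1, dist3]; norm_num [P]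
    · have h := hgd 0 2
      have h0 : s 0 = 1 := by decide
      have h2 : s 2 = 3 := by decide
      rw [h0, h2] at h
      rw [h]
    · have h := hgd 2 5
      have h2 : s 2 = 3 := by decide
      have h5 : s 5 = 5 := by decide
      rw [h2, h5] at h
      rw [h]
    · obtain ⟨u, hu, h⟩ := (hD 0 1 (by decide)).2
      exact ⟨u, hu, h 2 (by decide) (by decide), h 3 (by decide) (by decide),
        h 4 (by decide) (by decide), h 5 (by decide) (by decide)⟩
    · obtain ⟨u, hu, h⟩ := (hD 1 2 (by decide)).2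
      exact ⟨u, hu, h 0 (by decide) (by decide), h 3 (by decide) (by decide)⟩
    · obtain ⟨u, hu, h⟩ := (hD 4 5 (by decide)).2
      exact ⟨u, hu, h 0 (by decide) (by decide), h 1 (by decide) (by decide),
        h 2 (by decide) (by decide), h 3 (by decide) (by decide)⟩

lemma keeps_refl (R : Set E3) : KeepsLengths (OrderIso.refl (Faces R)) := fun _ _ => rfl

end Pool.Agent.Helper50.EdgeSym
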